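import Mathlib
import Pool.Agent.Y201.LI.Stm5
import Pool.Agent.Y270.C3.Base

/-! # Project LI, job FLD: the generic point of projective space near a fixed point `η`

Proof by helper768. -/

set_option autoImplicit false

namespace Pool.Agent.Y768.LI

open MvPolynomial Pool.Agent.TH314.PD IntermediateField Module Pool.Agent.Y201.LI
  Pool.Agent.Y201.C3

noncomputable section

/-- the linear forms -/
def W {r : ℕ} (η : Fin r → ℂ) (i₀ i : Fin r) : MvPolynomial (Fin r) ℂ :=
  C (η i₀) * X i - C (η i) * X i₀

lemma W_hom {r : ℕ} (η : Fin r → ℂ) (i₀ i : Fin r) : (W η i₀ i).IsHomogeneous 1 :=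
  IsHomogeneous.sub (isHomogeneous_C_mul_X _ _) (isHomogeneous_C_mul_X _ _)

lemma W_ne {r : ℕ} (η : Fin r → ℂ) (i₀ i₁ : Fin r) (h0 : η i₀ ≠ 0) (h1 : i₁ ≠ i₀) :
    W η i₀ i₁ ≠ 0 := by
  intro h
  have h2 := congrArg (MvPolynomial.eval (Pi.single i₁ (1 : ℂ))) h
  simp only [W, map_sub, map_mul, eval_C, eval_X, Pi.single_eq_same, map_zero] at h2
  rw [Pi.single_eq_of_ne h1.symm] at h2
  apply h0
  linear_combination h2

/-- setting `X i₀` to zero -/
def eps {r : ℕ} (i₀ : Fin r) : MvPolynomial (Fin r) ℂ →ₐ[ℂ] MvPolynomial (Fin r) ℂ :=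
  aeval (fun i => if i = i₀ then 0 else X i)

lemma dvd_sub_eps {r : ℕ} (i₀ : Fin r) (H : MvPolynomial (Fin r) ℂ) :
    (X i₀ : MvPolynomial (Fin r) ℂ) ∣ H - eps i₀ H := by
  induction H using MvPolynomial.induction_on with
  | C a =>
    rw [eps, aeval_C, MvPolynomial.algebraMap_eq, sub_self]
    exact dvd_zero _
  | add f g hf hg =>
    rw [map_add]
    have := dvd_add hf hg
    convert this using 1
    ring
  | mul_X f i hf =>
    rw [map_mul]
    have hX : (X i₀ : MvPolynomial (Fin r) ℂ) ∣ X i - eps i₀ (X i) := by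
      rw [eps, aeval_X]
      by_cases hi : i = i₀
      · rw [if_pos hi, sub_zero, hi]
      · rw [if_neg hi, sub_self]
        exact dvd_zero _
    have := dvd_add (hf.mul_right (X i)) (hX.mul_left (eps i₀ f))
    convert this using 1
    ring

lemma eps_W {r : ℕ} (η : Fin r → ℂ) (i₀ : Fin r) {e : ℕ} {H : MvPolynomial (Fin r) ℂ}
    (hH : H.IsHomogeneous e) : eps i₀ (aeval (W η i₀) H) = C (η i₀) ^ e * eps i₀ H := by
  have h1 : eps i₀ (aeval (W η i₀) H) = aeval (fun i => eps i₀ (W η i₀ i)) H := by
    rw [← MvPolynomial.comp_aeval_apply]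
  have h2 : (fun i => eps i₀ (W η i₀ i)) =
      fun i => C (η i₀) * (if i = i₀ then 0 else X i : MvPolynomial (Fin r) ℂ) := by
    funext i
    simp only [eps, W, map_sub, map_mul, aeval_X, aeval_C, MvPolynomial.algebraMap_eq, if_true,
      mul_zero, sub_zero]
  rw [h1, h2, aeval_smul_form hH]
  rfl

lemma fin_eq {K1 K2 N : Type} [Field K1] [Field K2] [Field N] [Algebra K1 N] [Algebra K2 N]
    (h : (algebraMap K1 N).range = (algebraMap K2 N).range) : finrank K1 N = finrank K2 N := by
  let e1 : K1 ≃+* (algebraMap K1 N).range := RingEquiv.ofBijective (algebraMap K1 N).rangeRestrict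
    ⟨fun a b hab => (algebraMap K1 N).injective (congrArg Subtype.val hab),
      (algebraMap K1 N).rangeRestrict_surjective⟩
  let e2 : K2 ≃+* (algebraMap K2 N).range := RingEquiv.ofBijective (algebraMap K2 N).rangeRestrict
    ⟨fun a b hab => (algebraMap K2 N).injective (congrArg Subtype.val hab),
      (algebraMap K2 N).rangeRestrict_surjective⟩
  let i : K1 ≃+* K2 := (e1.trans (RingEquiv.subringCongr h)).trans e2.symm
  have hi : ∀ a, algebraMap K2 N (i a) = algebraMap K1 N a := by
    intro a
    have h1 : e2 (i a) = RingEquiv.subringCongr h (e1 a) := e2.apply_symm_apply _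
    exact congrArg Subtype.val h1
  exact Algebra.finrank_eq_of_equiv_equiv i (RingEquiv.refl N) (by ext a; exact hi a)

/-- common denominators -/
lemma common {K : Type} [Field K] [Algebra ℂ K] {m : ℕ} {x : Fin m → K} {b : Fin m}
    (hb : x b ≠ 0) (a : ℕ → K) (ha : ∀ j, a j ∈ ratioField x) (S : Finset ℕ) :
    ∃ (E : ℕ) (Q : MvPolynomial (Fin m) ℂ) (P : ℕ → MvPolynomial (Fin m) ℂ),
      Q.IsHomogeneous E ∧ aeval x Q ≠ 0 ∧
      ∀ j ∈ S, (P j).IsHomogeneous E ∧ aeval x Q * a j = aeval x (P j) := by
  classical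
  induction S using Finset.induction_on with
  | empty => exact ⟨0, 1, fun _ => 0, isHomogeneous_one _ _, by rw [map_one]; exact one_ne_zero,
      fun j hj => absurd hj (Finset.notMem_empty j)⟩
  | insert k S hk ih =>
    obtain ⟨E, Q, P, hQ, hQ0, hP⟩ := ih
    obtain ⟨e, P', Q', hP', hQ', hQ'0, hr⟩ := Pool.Agent.Y270.C3.ratio_form hb (ha k)
    refine ⟨E + e, Q * Q', fun j => if j = k then Q * P' else P j * Q', hQ.mul hQ', ?_, ?_⟩
    · rw [map_mul]; exact mul_ne_zero hQ0 hQ'0
    · intro j hj
      beta_reduce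
      by_cases hjk : j = k
      · rw [if_pos hjk]
        refine ⟨hQ.mul hP', ?_⟩
        rw [hjk, map_mul, map_mul, ← hr]
        ring
      · rw [if_neg hjk]
        have := hP j (Finset.mem_of_mem_insert_of_ne hj hjk)
        refine ⟨this.1.mul hQ', ?_⟩
        rw [map_mul, map_mul, ← this.2]
        ring

lemma W_eval_shift {r : ℕ} (η x : Fin r → ℂ) (i₀ i : Fin r) (T : ℂ) :
    eval (fun k => x k + T * η k) (W η i₀ i) = eval x (W η i₀ i) := by
  simp only [W, map_sub, map_mul, eval_C, eval_X]
  ring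

/-- the polynomial identity -/
lemma forms_zero {r : ℕ} (η : Fin r → ℂ) (i₀ i₁ : Fin r) (h0 : η i₀ ≠ 0) (h1 : i₁ ≠ i₀) (J : ℕ)
    (P : ℕ → MvPolynomial (Fin r) ℂ)
    (h : ∑ j ∈ Finset.range (J + 1), aeval (W η i₀) (P j) * (W η i₀ i₁) ^ j * X i₀ ^ (J - j) = 0) :
    ∀ j ∈ Finset.range (J + 1), aeval (W η i₀) (P j) = 0 := by
  have key : ∀ x : Fin r → ℂ, ∀ j ∈ Finset.range (J + 1),
      eval x (aeval (W η i₀) (P j) * (W η i₀ i₁) ^ j) = 0 := by
    intro x
    set c : ℕ → ℂ := fun j => eval x (aeval (W η i₀) (P j) * (W η i₀ i₁) ^ j) with hc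
    have hsum : ∀ Y : ℂ, ∑ j ∈ Finset.range (J + 1), c j * Y ^ (J - j) = 0 := by
      intro Y
      set T : ℂ := (Y - x i₀) / η i₀ with hT
      have hY : x i₀ + T * η i₀ = Y := by
        rw [hT]; field_simp; ring
      have h2 := congrArg (eval (fun k => x k + T * η k)) h
      rw [map_sum, map_zero] at h2
      rw [← h2]
      refine Finset.sum_congr rfl fun j _ => ?_
      rw [map_mul, map_pow (eval _) (X i₀), eval_X, hY]
      congr 1
      rw [hc]
      simp only [map_mul, map_pow, W_eval_shift]
      congr 1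
      have e1 : ∀ (y : Fin r → ℂ), eval y (aeval (W η i₀) (P j)) =
          eval (fun i => eval y (W η i₀ i)) (P j) := by
        intro y
        have := MvPolynomial.comp_aeval_apply (R := ℂ) (W η i₀)
          (aeval y : MvPolynomial (Fin r) ℂ →ₐ[ℂ] ℂ) (P j)
        simpa [MvPolynomial.coe_aeval_eq_eval] using this
      rw [e1, e1]
      congr 2
      funext i
      exact (W_eval_shift η x i₀ i T).symm
    set q : Polynomial ℂ := ∑ j ∈ Finset.range (J + 1), Polynomial.C (c j) * Polynomial.X ^ (J - j)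
      with hq
    have hq0 : q = 0 := by
      refine Polynomial.funext fun Y => ?_
      rw [hq, Polynomial.eval_finsetSum, Polynomial.eval_zero, ← hsum Y]
      refine Finset.sum_congr rfl fun j _ => ?_
      simp
    intro j hj
    have h3 := congrArg (fun p => Polynomial.coeff p (J - j)) hq0
    simp only [hq, Polynomial.finsetSum_coeff, Polynomial.coeff_C_mul_X_pow,
      Polynomial.coeff_zero] at h3
    rw [Finset.sum_eq_single j] at h3
    · rw [if_pos rfl] at h3
      exact h3
    · intro k hk hkj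
      rw [if_neg]
      rw [Finset.mem_range] at hk hj
      omega
    · intro hj'
      exact absurd hj hj'
  intro j hj
  have h4 : aeval (W η i₀) (P j) * (W η i₀ i₁) ^ j = 0 :=
    MvPolynomial.funext fun x => by rw [key x j hj, map_zero]
  exact (mul_eq_zero.1 h4).resolve_right (pow_ne_zero _ (W_ne η i₀ i₁ h0 h1))

theorem fld : S_FLD := by
  intro r η i₀ i₁ h0 h1 N _ _ z hz s z₁ hs hz₁
  have hη : algebraMap ℂ N (η i₀) ≠ 0 := by
    rw [ne_eq, map_eq_zero]; exact h0
  have hzi : z i₀ ≠ 0 := by
    intro h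
    have := hz 1 (X i₀) (isHomogeneous_X _ _) (by rw [aeval_X]; exact h)
    exact X_ne_zero i₀ this
  have hWz : ∀ i, aeval z (W η i₀ i) = z i₀ * s * z₁ i := by
    intro i
    rw [mul_assoc, hz₁ i]
    simp only [W, map_sub, map_mul, aeval_X, aeval_C]
    field_simp
  have hWs : aeval z (W η i₀ i₁) = z i₀ * s := by
    rw [hs]
    simp only [W, map_sub, map_mul, aeval_X, aeval_C]
    field_simp
  have hs0 : s ≠ 0 := by
    intro h
    rw [h, mul_zero] at hWs
    exact W_ne η i₀ i₁ h0 h1 (hz 1 _ (W_hom η i₀ i₁) hWs)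
  have hz10 : z₁ i₀ = 0 := by
    have h2 := hz₁ i₀
    rw [mul_div_assoc, div_self hzi, mul_one, sub_self] at h2
    exact (mul_eq_zero.1 h2).resolve_left hs0
  have hz11 : z₁ i₁ = 1 := by
    have h2 := hz₁ i₁
    rw [← hs] at h2
    exact mul_left_cancel₀ hs0 (by rw [h2, mul_one])
  have hg : z i₀ * s ≠ 0 := mul_ne_zero hzi hs0
  have hform : ∀ (e : ℕ) (H : MvPolynomial (Fin r) ℂ), H.IsHomogeneous e →
      aeval z (aeval (W η i₀) H) = (z i₀ * s) ^ e * aeval z₁ H := by
    intro e H hH
    have e1 : aeval z (aeval (W η i₀) H) = aeval (fun i => aeval z (W η i₀ i)) H := by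
      rw [← MvPolynomial.comp_aeval_apply]
    have e2 : (fun i => aeval z (W η i₀ i)) = fun i => (z i₀ * s) * z₁ i := funext hWz
    rw [e1, e2, aeval_smul_form hH]
  have hformh : ∀ (e : ℕ) (H : MvPolynomial (Fin r) ℂ), H.IsHomogeneous e →
      (aeval (W η i₀) H).IsHomogeneous e := by
    intro e H hH
    have := hH.aeval (W η i₀) (W_hom η i₀)
    rwa [one_mul] at this
  refine ⟨hs0, hz10, hz11, ?_, ?_, ?_⟩
  · intro e H hH hH0
    have h2 := hform e H hH
    rw [hH0, mul_zero] at h2
    have h3 := hz e _ (hformh e H hH) h2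
    have h4 := eps_W η i₀ hH
    rw [h3, map_zero] at h4
    have h5 : eps i₀ H = 0 := by
      rcases mul_eq_zero.1 h4.symm with h5 | h5
      · exact absurd h5 (pow_ne_zero _ (by rw [ne_eq, C_eq_zero]; exact h0))
      · exact h5
    have h6 := dvd_sub_eps i₀ H
    rwa [h5, sub_zero] at h6
  · rintro ⟨p, hp, hps⟩
    have hx1 : z₁ i₁ ≠ 0 := by rw [hz11]; exact one_ne_zero
    obtain ⟨E, Q, P, hQ, hQ0, hP⟩ := common hx1 (fun j => ((p.coeff j : ratioField z₁) : N))
      (fun j => (p.coeff j).2) (Finset.range (p.natDegree + 1))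
    have hsum : ∑ j ∈ Finset.range (p.natDegree + 1), aeval z₁ (P j) * s ^ j = 0 := by
      rw [Polynomial.aeval_eq_sum_range] at hps
      have h2 : ∑ j ∈ Finset.range (p.natDegree + 1), aeval z₁ (P j) * s ^ j =
          aeval z₁ Q * ∑ j ∈ Finset.range (p.natDegree + 1), p.coeff j • s ^ j := by
        rw [Finset.mul_sum]
        refine Finset.sum_congr rfl fun j hj => ?_
        rw [← (hP j hj).2, Algebra.smul_def, mul_assoc]
        rfl
      rw [h2, hps, mul_zero]
    have hΦ : ∑ j ∈ Finset.range (p.natDegree + 1),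
        aeval (W η i₀) (P j) * (W η i₀ i₁) ^ j * X i₀ ^ (p.natDegree - j) = 0 := by
      apply hz (E + p.natDegree)
      · refine IsHomogeneous.sum _ _ _ fun j hj => ?_
        have hj' : j ≤ p.natDegree := by
          rw [Finset.mem_range] at hj; omega
        have h2 := ((hformh E (P j) (hP j hj).1).mul ((W_hom η i₀ i₁).pow j)).mul
          (isHomogeneous_X_pow (R := ℂ) i₀ (p.natDegree - j))
        have h3 : E + 1 * j + (p.natDegree - j) = E + p.natDegree := by omega
        rw [h3] at h2
        exact h2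
      · rw [map_sum]
        have h2 : ∀ j ∈ Finset.range (p.natDegree + 1),
            aeval z (aeval (W η i₀) (P j) * (W η i₀ i₁) ^ j * X i₀ ^ (p.natDegree - j)) =
            ((z i₀ * s) ^ E * z i₀ ^ p.natDegree) * (aeval z₁ (P j) * s ^ j) := by
          intro j hj
          have hj' : j ≤ p.natDegree := by
            rw [Finset.mem_range] at hj; omega
          rw [map_mul, map_mul, map_pow, map_pow, aeval_X, hWs, hform E (P j) (hP j hj).1]
          have h3 : z i₀ ^ p.natDegree = z i₀ ^ j * z i₀ ^ (p.natDegree - j) := by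
            rw [← pow_add]; congr 1; omega
          rw [h3, mul_pow (z i₀) s j]
          ring
        rw [Finset.sum_congr rfl h2, ← Finset.mul_sum, hsum, mul_zero]
    have hall := forms_zero η i₀ i₁ h0 h1 _ P hΦ
    have hlast : p.natDegree ∈ Finset.range (p.natDegree + 1) := by
      rw [Finset.mem_range]; omega
    have h2 := hall _ hlast
    have h3 := hform E _ (hP _ hlast).1
    rw [h2, map_zero] at h3
    have h4 : aeval z₁ (P p.natDegree) = 0 :=
      (mul_eq_zero.1 h3.symm).resolve_left (pow_ne_zero _ hg)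
    have h5 := (hP _ hlast).2
    rw [h4] at h5
    have h6 : ((p.coeff p.natDegree : ratioField z₁) : N) = 0 :=
      (mul_eq_zero.1 h5).resolve_left hQ0
    have h7 : p.coeff p.natDegree = 0 := Subtype.ext h6
    exact hp (Polynomial.leadingCoeff_eq_zero.1 h7)
  · -- the two fields have the same elements
    have hsr : s ∈ ratioField z := by
      rw [hs, mul_div_assoc]
      exact sub_mem (mul_mem ((ratioField z).algebraMap_mem _)
        (IntermediateField.subset_adjoin _ _ ⟨i₁, i₀, rfl⟩)) ((ratioField z).algebraMap_mem _)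
    have hz1r : ∀ i, z₁ i ∈ ratioField z := by
      intro i
      have h2 : z₁ i = (algebraMap ℂ N (η i₀) * (z i / z i₀) - algebraMap ℂ N (η i)) / s := by
        rw [← mul_div_assoc, ← hz₁ i]
        field_simp
      rw [h2]
      exact div_mem (sub_mem (mul_mem ((ratioField z).algebraMap_mem _)
        (IntermediateField.subset_adjoin _ _ ⟨i, i₀, rfl⟩)) ((ratioField z).algebraMap_mem _)) hsr
    have hle1 : ratioField z₁ ≤ ratioField z := by
      unfold ratioField
      rw [IntermediateField.adjoin_le_iff]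
      rintro _ ⟨i, j, rfl⟩
      exact div_mem (hz1r i) (hz1r j)
    have hrange : (algebraMap (adjoin (ratioField z₁) {s}) N).range =
        (algebraMap (ratioField z) N).range := by
      ext y
      constructor
      · rintro ⟨a, rfl⟩
        have h2 : (adjoin (ratioField z₁) {s}).toSubfield ≤ (ratioField z).toSubfield := by
          rw [adjoin_toSubfield, Subfield.closure_le]
          rintro x (⟨c, rfl⟩ | hx)
          · exact hle1 c.2
          · rw [Set.mem_singleton_iff] at hx
            subst hx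
            exact hsr
        exact ⟨⟨_, h2 a.2⟩, rfl⟩
      · rintro ⟨a, rfl⟩
        have hq : ∀ i, z i / z i₀ ∈ (adjoin (ratioField z₁) {s}).toSubfield := by
          intro i
          have hc : ∀ c : ℂ, algebraMap ℂ N c ∈ (adjoin (ratioField z₁) {s}).toSubfield := by
            intro c
            exact (adjoin (ratioField z₁) {s}).algebraMap_mem
              (⟨_, (ratioField z₁).algebraMap_mem c⟩ : ratioField z₁)
          have hzz : z₁ i ∈ (adjoin (ratioField z₁) {s}).toSubfield := by
            have h3 : z₁ i ∈ ratioField z₁ := by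
              have : z₁ i = z₁ i / z₁ i₁ := by rw [hz11, div_one]
              rw [this]
              exact IntermediateField.subset_adjoin _ _ ⟨i, i₁, rfl⟩
            exact (adjoin (ratioField z₁) {s}).algebraMap_mem (⟨_, h3⟩ : ratioField z₁)
          have hss : s ∈ (adjoin (ratioField z₁) {s}).toSubfield :=
            mem_adjoin_simple_self (ratioField z₁) s
          have h2 : z i / z i₀ = (s * z₁ i + algebraMap ℂ N (η i)) / algebraMap ℂ N (η i₀) := by
            rw [hz₁ i]
            field_simp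
            ring
          rw [h2]
          exact div_mem (add_mem (mul_mem hss hzz) (hc _)) (hc _)
        have h2 : (ratioField z).toSubfield ≤ (adjoin (ratioField z₁) {s}).toSubfield := by
          unfold ratioField
          rw [adjoin_toSubfield, Subfield.closure_le]
          rintro x (⟨c, rfl⟩ | ⟨i, j, rfl⟩)
          · exact (adjoin (ratioField z₁) {s}).algebraMap_mem
              (⟨_, (ratioField z₁).algebraMap_mem c⟩ : ratioField z₁)
          · have h3 : z i / z j = (z i / z i₀) / (z j / z i₀) := by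
              rw [div_div_div_cancel_right₀ hzi]
            rw [h3]
            exact div_mem (hq i) (hq j)
        exact ⟨⟨_, h2 a.2⟩, rfl⟩
    exact fin_eq hrange

end

end Pool.Agent.Y768.LI
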